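import Pool.Agent.Q233.TFSup

/-!
# MP_f156ce_mp: the Thomas-Fermi molecular energy minus the atomic energies is not superadditive

For every number `k ≥ 2` of nuclei and every choice of distinct positions `R₁, …, R_k`, the function
`e - ẽ` (neutral TF energy of the molecule, nuclear repulsion included, minus the energies of the
neutral atoms) is not superadditive on `ℝ₊ᵏ`; it is superadditive only for `k = 1` (where it is `0`).
-/

set_option autoImplicit false
open MeasureTheory Set Filter Topology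

namespace Pool.Agent.Results.MP_f156ce_mp.NotSuperadditive

/-- three dimensional Euclidean space -/
abbrev E3 := EuclideanSpace ℝ (Fin 3)

/-- the densities on which the TF functional is defined -/
def Admissible (ρ : E3 → ℝ) : Prop :=
  Measurable ρ ∧ (∀ x, 0 ≤ ρ x) ∧ Integrable ρ ∧ Integrable (fun x => ρ x ^ (5/3 : ℝ))

/-- the TF functional `ξ`, nuclear repulsion `U` included -/
noncomputable def xi {k : ℕ} (z : Fin k → ℝ) (R : Fin k → E3) (ρ : E3 → ℝ) : ℝ :=
  3/5 * (∫ x, ρ x ^ (5/3 : ℝ)) - (∫ x, (∑ j, z j / ‖x - R j‖) * ρ x)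
    + 1/2 * (∫ x, ∫ y, ρ x * ρ y / ‖x - y‖)
    + ∑ i, ∑ j ∈ Finset.Ioi i, z i * z j / ‖R i - R j‖

/-- the neutral TF energy `e(z)` -/
noncomputable def energy {k : ℕ} (R : Fin k → E3) (z : Fin k → ℝ) : ℝ :=
  sInf {E | ∃ ρ, Admissible ρ ∧ ∫ x, ρ x = ∑ j, z j ∧ xi z R ρ = E}

/-- the energy `e^{at}(z)` of the neutral atom -/
noncomputable def eAt (z : ℝ) : ℝ := energy (k := 1) (fun _ => 0) (fun _ => z)

/-- the function `e - ẽ` -/
noncomputable def diff {k : ℕ} (R : Fin k → E3) (z : Fin k → ℝ) : ℝ := energy R z - ∑ j, eAt (z j)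

/-- superadditivity on `ℝ₊ᵏ` -/
def Superadditive {k : ℕ} (f : (Fin k → ℝ) → ℝ) : Prop :=
  ∀ z₁ z₂ : Fin k → ℝ, (∀ j, 0 ≤ z₁ j) → (∀ j, 0 ≤ z₂ j) → f z₁ + f z₂ ≤ f (z₁ + z₂)

open Pool.Agent.Helper557.TFP Pool.Agent.Q233.TFAtom Pool.Agent.Q233.TFSat Pool.Agent.Q233.TFSup in
lemma diff_scale {k : ℕ} (R : Fin k → E3) {s : ℝ} (hs : 0 < s) :
    diff R (fun _ => s ^ 3) = s ^ 7 * (en (fun _ => 1) (fun j => s • R j) k - k * en z1 R1 1) := by
  have h1 : energy R (fun _ => s ^ 3) = s ^ 7 * en (fun _ => 1) (fun j => s • R j) k := by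
    have e := en_scale hs (z := fun _ : Fin k => (1:ℝ)) (fun _ => zero_le_one) (fun j => s • R j) (lam := (k:ℝ)) (Nat.cast_nonneg k)
    rw [← e]
    have e1 : (fun j : Fin k => s ^ 3 * (fun _ : Fin k => (1:ℝ)) j) = fun _ => s ^ 3 := by funext j; simp
    have e2 : (fun j => s⁻¹ • (fun j => s • R j) j) = R := by
      funext j; simp only; rw [smul_smul, inv_mul_cancel₀ hs.ne', one_smul]
    have e3 : s ^ 3 * (k:ℝ) = ∑ _j : Fin k, s ^ 3 := by simp; ring
    rw [e1, e2, e3]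
    rfl
  have h2 : eAt (s ^ 3) = s ^ 7 * en z1 R1 1 := by
    have e := en_scale hs (z := z1) (fun _ => zero_le_one) R1 (lam := 1) zero_le_one
    rw [← e]
    have e1 : (fun j : Fin 1 => s ^ 3 * z1 j) = fun _ => s ^ 3 := by funext j; simp [z1]
    have e2 : (fun j => s⁻¹ • R1 j) = fun _ => 0 := by funext j; simp [R1]
    have e3 : s ^ 3 * (1:ℝ) = ∑ _j : Fin 1, s ^ 3 := by simp
    rw [e1, e2, e3]
    rfl
  unfold diff
  rw [h1]
  simp only [h2, Finset.sum_const, Finset.card_univ, Fintype.card_fin, nsmul_eq_mul]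
  ring

lemma exists_sep {k : ℕ} (hk : 2 ≤ k) (R : Fin k → E3) (hR : Function.Injective R) :
    ∃ d : ℝ, 0 < d ∧ ∀ i j, i ≠ j → d ≤ ‖R i - R j‖ := by
  classical
  have : Nonempty (Fin k × Fin k) := ⟨(⟨0, by omega⟩, ⟨0, by omega⟩)⟩
  obtain ⟨p, hp⟩ := Finite.exists_min (fun p : Fin k × Fin k => if p.1 = p.2 then (1:ℝ) else ‖R p.1 - R p.2‖)
  refine ⟨if p.1 = p.2 then (1:ℝ) else ‖R p.1 - R p.2‖, ?_, fun i j hij => ?_⟩
  · split_ifs with h
    · exact one_pos
    · exact norm_pos_iff.2 (sub_ne_zero.2 (fun h' => h (hR h')))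
  · have := hp (i, j)
    simp only [if_neg hij] at this
    exact this

open Pool.Agent.Helper557.TFP Pool.Agent.Q233.TFAtom Pool.Agent.Q233.TFSat Pool.Agent.Q233.TFSup in
/-- saturation: along the diagonal `e - ẽ` grows at most like the cube root -/
lemma diff_upper {k : ℕ} (hk : 2 ≤ k) (R : Fin k → E3) (hR : Function.Injective R) :
    ∃ K s₁ : ℝ, 0 < s₁ ∧ ∀ s, s₁ ≤ s → diff R (fun _ => s ^ 3) ≤ K * s := by
  obtain ⟨d, hd, hsep⟩ := exists_sep hk R hR
  obtain ⟨C, hC, hX⟩ := tr_X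
  refine ⟨k * C * (2 / d) ^ 6, 6 / d, by positivity, fun s hs => ?_⟩
  have hs0 : 0 < s := lt_of_lt_of_le (by positivity) hs
  have hsd : 6 ≤ s * d := by rwa [div_le_iff₀ hd] at hs
  set L := s * d / 2 with hL
  have hL3 : 3 ≤ L := by rw [hL]; linarith
  have hL0 : 0 < L := by linarith
  have hsep' : ∀ i j, i ≠ j → 2 * L ≤ ‖s • R i - s • R j‖ := by
    intro i j hij
    rw [← smul_sub, norm_smul, Real.norm_of_nonneg hs0.le, hL]
    have := mul_le_mul_of_nonneg_left (hsep i j hij) hs0.le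
    linarith
  have h1 : en (fun _ => 1) (fun j => s • R j) k ≤ k * X (tr L) := by
    rw [← mol_xi hL3 hsep']
    exact csInf_le (en_bdd _ (fun _ => zero_le_one) _ _) ⟨mol L (fun j => s • R j), mol_adm hL3 hsep', mol_mass hL3, rfl⟩
  have h2 := en_one_ge
  have h3 := hX L hL3
  have hk0 : (0:ℝ) ≤ k := Nat.cast_nonneg k
  rw [diff_scale R hs0]
  have h4 : en (fun _ => 1) (fun j => s • R j) k - k * en z1 R1 1 ≤ k * (C * (L ^ 6)⁻¹) := by
    have h5 := mul_le_mul_of_nonneg_left h2 hk0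
    have h6 := mul_le_mul_of_nonneg_left h3 hk0
    linarith
  calc s ^ 7 * (en (fun _ => 1) (fun j => s • R j) k - k * en z1 R1 1) ≤ s ^ 7 * (k * (C * (L ^ 6)⁻¹)) :=
        mul_le_mul_of_nonneg_left h4 (by positivity)
    _ = k * C * (2 / d) ^ 6 * s := by rw [hL]; field_simp

open Pool.Agent.Helper557.TFP Pool.Agent.Q233.TFAtom Pool.Agent.Q233.TFSat Pool.Agent.Q233.TFSup in
/-- positivity for small charges -/
lemma diff_pos {k : ℕ} (hk : 2 ≤ k) (R : Fin k → E3) (hR : Function.Injective R) :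
    ∃ s : ℝ, 0 < s ∧ 0 < diff R (fun _ => s ^ 3) := by
  obtain ⟨C, hC⟩ := xi_lower (k := k) (fun _ => 1) (fun _ => zero_le_one) (k:ℝ)
  set i0 : Fin k := ⟨0, by omega⟩ with hi0
  set i1 : Fin k := ⟨1, by omega⟩ with hi1
  have hne : R i0 ≠ R i1 := fun h => by
    have := hR h
    rw [hi0, hi1, Fin.mk.injEq] at this
    omega
  set D := ‖R i0 - R i1‖ with hD
  have hD0 : 0 < D := norm_pos_iff.2 (sub_ne_zero.2 hne)
  set M := |C + k * en z1 R1 1| + 1 with hM
  have hM0 : 0 < M := by positivity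
  refine ⟨1 / (D * M), by positivity, ?_⟩
  have hs : 0 < 1 / (D * M) := by positivity
  set s := 1 / (D * M) with hsdef
  rw [diff_scale R hs]
  apply mul_pos (by positivity)
  have h1 : (∑ i, ∑ j ∈ Finset.Ioi i, (1:ℝ) * 1 / ‖s • R i - s • R j‖) - C ≤ en (fun _ => 1) (fun j => s • R j) k := by
    refine le_csInf (en_nonempty _ _ _ (Nat.cast_nonneg k)) ?_
    rintro E ⟨ρ, hρ, hm, rfl⟩
    exact hC _ ρ hρ hm
  have h2 : M ≤ ∑ i, ∑ j ∈ Finset.Ioi i, (1:ℝ) * 1 / ‖s • R i - s • R j‖ := by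
    have t1 : ∑ j ∈ Finset.Ioi i0, (1:ℝ) * 1 / ‖s • R i0 - s • R j‖ ≤ ∑ i, ∑ j ∈ Finset.Ioi i, (1:ℝ) * 1 / ‖s • R i - s • R j‖ :=
      Finset.single_le_sum (f := fun i => ∑ j ∈ Finset.Ioi i, (1:ℝ) * 1 / ‖s • R i - s • R j‖)
        (fun i _ => Finset.sum_nonneg (fun j _ => by positivity)) (Finset.mem_univ i0)
    have t2 : (1:ℝ) * 1 / ‖s • R i0 - s • R i1‖ ≤ ∑ j ∈ Finset.Ioi i0, (1:ℝ) * 1 / ‖s • R i0 - s • R j‖ :=
      Finset.single_le_sum (f := fun j => (1:ℝ) * 1 / ‖s • R i0 - s • R j‖)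
        (fun j _ => by positivity) (by rw [Finset.mem_Ioi, hi0, hi1, Fin.mk_lt_mk]; omega)
    have t3 : (1:ℝ) * 1 / ‖s • R i0 - s • R i1‖ = M := by
      rw [← smul_sub, norm_smul, Real.norm_of_nonneg hs.le, ← hD, hsdef]
      field_simp
    rw [t3] at t2
    exact t2.trans t1
  have h3 : C + k * en z1 R1 1 < M := by
    rw [hM]; linarith [le_abs_self (C + k * en z1 R1 1)]
  linarith

open Pool.Agent.Helper557.TFP in
lemma diff_one (R : Fin 1 → E3) (z : Fin 1 → ℝ) : diff R z = 0 := by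
  have h := en_translate z (fun _ : Fin 1 => (0 : E3)) (∑ j, z j) (R 0)
  have e1 : (fun i : Fin 1 => (0 : E3) + R 0) = R := by
    funext i; rw [zero_add, Subsingleton.elim i 0]
  rw [e1] at h
  have e2 : (fun _ : Fin 1 => z 0) = z := by funext i; rw [Subsingleton.elim i 0]
  have h1 : energy R z = energy (fun _ : Fin 1 => (0 : E3)) z := h
  unfold diff eAt
  rw [h1]
  simp only [Finset.univ_unique, Fin.default_eq_zero, Finset.sum_singleton]
  rw [e2, sub_self]

/-- **The Thomas-Fermi energy minus the atomic energies is superadditive only in the trivial case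
`k = 1`**: for every `k ≥ 2` and every choice of distinct nuclear positions it is not superadditive.
The violation occurs for charge vectors with all entries equal and positive. -/
theorem result :
    (∀ (k : ℕ) (R : Fin k → E3), 1 ≤ k → Function.Injective R → (Superadditive (diff R) ↔ k = 1)) ∧
    (∀ (k : ℕ) (R : Fin k → E3), 2 ≤ k → Function.Injective R →
      ∃ a b : ℝ, 0 < a ∧ 0 < b ∧
        diff R (fun _ => a + b) < diff R (fun _ => a) + diff R (fun _ => b)) := by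
  have main : ∀ (k : ℕ) (R : Fin k → E3), 2 ≤ k → Function.Injective R →
      ∃ a b : ℝ, 0 < a ∧ 0 < b ∧
        diff R (fun _ => a + b) < diff R (fun _ => a) + diff R (fun _ => b) := by
    intro k R hk hR
    by_contra hcon
    push Not at hcon
    obtain ⟨s, hs, hpos⟩ := diff_pos hk R hR
    obtain ⟨K, s₁, hs₁, hup⟩ := diff_upper hk R hR
    set δ := diff R (fun _ => s ^ 3) with hδ
    have hn : ∀ n : ℕ, ((n:ℝ) + 1) * δ ≤ diff R (fun _ => ((n:ℝ) + 1) * s ^ 3) := by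
      intro n
      induction n with
      | zero => simp [hδ]
      | succ n ih =>
        have h := hcon (((n:ℝ) + 1) * s ^ 3) (s ^ 3) (by positivity) (by positivity)
        have e : ((n:ℝ) + 1) * s ^ 3 + s ^ 3 = (((n + 1 : ℕ) : ℝ) + 1) * s ^ 3 := by push_cast; ring
        rw [e] at h
        push_cast at h ih ⊢
        linarith
    obtain ⟨m, hm⟩ := exists_nat_gt (max (s₁ / s) (max (|K| * s / δ) 1))
    have hm1 : s₁ / s < m := (le_max_left _ _).trans_lt hm
    have hm2 : |K| * s / δ < m := ((le_max_left _ _).trans (le_max_right _ _)).trans_lt hm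
    have hm3 : (1:ℝ) < m := ((le_max_right _ _).trans (le_max_right _ _)).trans_lt hm
    have hm0 : (0:ℝ) < m := by linarith
    have h1 : s₁ ≤ m * s := by rw [div_lt_iff₀ hs] at hm1; exact hm1.le
    have h2 := hup (m * s) h1
    have h3 := hn (m ^ 3 - 1)
    have hm' : 1 ≤ m ^ 3 := Nat.one_le_pow _ _ (by exact_mod_cast hm0)
    have e1 : (((m ^ 3 - 1 : ℕ) : ℝ) + 1) = (m:ℝ) ^ 3 := by
      rw [Nat.cast_sub hm']; push_cast; ring
    rw [e1, ← mul_pow] at h3
    have h4 : (m:ℝ) ^ 3 * δ ≤ K * (m * s) := h3.trans h2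
    have h5 : (m:ℝ) ^ 2 * δ ≤ |K| * s := by
      have t1 : K * (m * s) ≤ |K| * (m * s) := mul_le_mul_of_nonneg_right (le_abs_self K) (by positivity)
      have t2 : (m:ℝ) * ((m:ℝ) ^ 2 * δ) ≤ m * (|K| * s) := by nlinarith
      exact le_of_mul_le_mul_left t2 hm0
    have h6 : |K| * s < m * δ := by rwa [div_lt_iff₀ hpos] at hm2
    have h7 : (m:ℝ) * δ ≤ (m:ℝ) ^ 2 * δ := by
      apply mul_le_mul_of_nonneg_right _ hpos.le
      nlinarith
    linarith
  refine ⟨fun k R hk hR => ⟨fun hf => ?_, fun h1 => ?_⟩, main⟩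
  · by_contra hne
    obtain ⟨a, b, ha, hb, hlt⟩ := main k R (by omega) hR
    have := hf (fun _ => a) (fun _ => b) (fun _ => ha.le) (fun _ => hb.le)
    have e : ((fun _ => a) + (fun _ => b) : Fin k → ℝ) = fun _ => a + b := by funext j; rfl
    rw [e] at this
    linarith
  · subst h1
    intro z₁ z₂ _ _
    rw [diff_one, diff_one, diff_one]; norm_num

end Pool.Agent.Results.MP_f156ce_mp.NotSuperadditive
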